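import Pool.Agent.helper89.PU.Spec1

set_option autoImplicit false

namespace Pool.Agent.PV

open Matrix Polynomial Pool.Agent.GO Pool.Agent.AR Pool.Agent.RG Pool.Agent.HZ Pool.Agent.DS
  Pool.Agent.AX Pool.Agent.UM Pool.Agent.PU MeasureTheory NumberField

lemma FPW_norm (p : ℕ) [Fact p.Prime] {K : Type} [NormedField K] [NormedAlgebra ℚ_[p] K] (v w : ℕ) (hw : ¬ p ∣ w) :
    ‖((p ^ v * w : ℕ) : K)‖ = ((p : ℝ)⁻¹) ^ v := by
  have h2 : ((p ^ v * w : ℕ) : K) = algebraMap ℚ_[p] K ((p : ℚ_[p]) ^ v * (w : ℚ_[p])) := by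
    simp only [map_mul, map_pow, map_natCast, Nat.cast_mul, Nat.cast_pow]
  have h3 : ‖(w : ℚ_[p])‖ = 1 := by
    rw [Padic.norm_natCast_eq_one_iff]
    exact (Nat.Prime.coprime_iff_not_dvd (Fact.out : p.Prime)).2 hw
  rw [h2, norm_algebraMap', norm_mul, norm_pow, Padic.norm_p, h3, mul_one]

lemma FPW_num (p : ℕ) (hp : 2 ≤ p) (ν : ℝ) (h0 : 0 ≤ ν) (h1 : ν ≤ ((p : ℝ) ^ 2)⁻¹) (v i : ℕ) (hi : 1 ≤ i) (hv : v ≤ i) :
    ν ^ i < ((p : ℝ)⁻¹) ^ v := by
  obtain ⟨t, ht⟩ : ∃ t : ℝ, t = (p : ℝ)⁻¹ := ⟨_, rfl⟩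
  have hp' : (2 : ℝ) ≤ p := by exact_mod_cast hp
  have ht0 : 0 < t := by rw [ht]; positivity
  have ht1 : t ≤ 1 / 2 := by
    rw [ht, one_div]
    exact inv_anti₀ (by norm_num) hp'
  have h1' : ν ≤ t * t := by
    rw [ht, ← mul_inv, ← pow_two]
    exact h1
  rw [← ht]
  calc ν ^ i ≤ (t * t) ^ i := pow_le_pow_left₀ h0 h1' i
    _ = t ^ i * t ^ i := mul_pow t t i
    _ < t ^ i * 1 := by
        refine mul_lt_mul_of_pos_left ?_ (by positivity)
        exact pow_lt_one₀ ht0.le (by linarith) (by omega)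
    _ = t ^ i := mul_one _
    _ ≤ t ^ v := pow_le_pow_of_le_one ht0.le (by linarith) hv

theorem FPW (hPWR : PWR_stmt) : FPW_stmt := by
  intro p _ K _ _ M hM hdet hnu k
  have hp : 2 ≤ p := (Fact.out : p.Prime).two_le
  have := ultra p K
  have hp' : (2 : ℝ) ≤ p := by exact_mod_cast hp
  refine hPWR M hM hdet ?_ ?_ k
  · have h := FPW_num p hp (nu M) (nu_nonneg M) hnu 0 1 le_rfl (by omega)
    simpa using h
  · intro j hj
    obtain ⟨v, w, hw, hjv⟩ := Nat.exists_eq_pow_mul_and_not_dvd (show j ≠ 0 by omega) p (by omega)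
    have hw0 : 0 < w := by
      rcases Nat.eq_zero_or_pos w with h | h
      · rw [h, mul_zero] at hjv
        omega
      · exact h
    have h1 : v < 2 ^ v := Nat.lt_two_pow_self
    have h2 : 2 ^ v ≤ p ^ v := Nat.pow_le_pow_left hp v
    have h3 : p ^ v ≤ p ^ v * w := Nat.le_mul_of_pos_right _ hw0
    have h4 : v ≤ j - 1 := by omega
    rw [hjv, FPW_norm p v w hw, ← hjv]
    exact FPW_num p hp (nu M) (nu_nonneg M) hnu v (j - 1) (by omega) h4

end Pool.Agent.PV
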